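import Pool.Agent.V5helper39.WR.Stm3

set_option autoImplicit false

/-!
# Project WR, job REPT
-/

open Finset

namespace Pool.Agent.V5helper11.WR

open Pool.Agent.V5helper39.WQ Pool.Agent.V5helper39.WR

theorem repr_UT {k q m : ℕ} {r' : ℕ → ℕ} (hq : 1 ≤ q) (hr' : ∀ i, r' i < q) (j : ℕ) : ∀ z,
    z ∈ UY k q (q * (m + 1)) 0 r' (fun _ => 0) j →
      ∃ x : Fin j → ℕ, (∀ l, 1 ≤ x l) ∧ ∑ l, x l ^ k = q * z + ∑ l ∈ range j, r' l ^ k := by
  induction j with
  | zero =>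
    intro z hz
    obtain rfl : z = 0 := hz
    exact ⟨fun l => 1, fun _ => le_rfl, by simp⟩
  | succ j ih =>
    rintro z ⟨x, hx, hxY, hxr, v, hv, rfl⟩
    obtain ⟨f, hf, hs⟩ := ih v hv
    have hxq : x % q = r' j := by
      rw [← Nat.mod_mod_of_dvd x (Dvd.intro (m + 1) rfl : q ∣ q * (m + 1)), hxr, Nat.mod_eq_of_lt (hr' j)]
    have h1 := mul_cc (k := k) (q := q) (x := x)
    rw [hxq] at h1
    refine ⟨(Fin.cons x f : Fin (j + 1) → ℕ), fun l => Fin.cases (hq.trans hx) hf l, ?_⟩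
    show ∑ l : Fin (j + 1), _ = _
    rw [Fin.sum_univ_succ]
    simp only [Fin.cons_zero, Fin.cons_succ]
    rw [hs, sum_range_succ, ← h1]
    nlinarith

theorem t_REPT : S_REPT := by
  intro k q m j X N r r' θ hk hq hr hr' hX i
  induction i with
  | zero =>
    intro z hzN hz
    obtain ⟨x, hx, h⟩ := repr_UT hq hr' j z hz
    exact ⟨x, fun l => 1, hx, fun _ => le_rfl, by simpa using h⟩
  | succ i ih =>
    rintro z hzN ⟨x, hx, v, hv, rfl⟩
    obtain ⟨f, g, hf, hg, hs⟩ := ih v (by omega) hv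
    obtain ⟨hx1, hx2⟩ := Finset.mem_filter.1 hx
    have hxX : X ≤ x := (Finset.mem_Icc.1 hx1).1
    have hxq : x % q = r (i + 1) := by
      rw [← Nat.mod_mod_of_dvd x (Dvd.intro (m + 1) rfl : q ∣ q * (m + 1)), hx2, Nat.add_mul_mod_self_left,
        Nat.mod_eq_of_lt (hr (i + 1))]
    have h1 := mul_cc (k := k) (q := q) (x := x)
    rw [hxq] at h1
    have hd : q ∣ θ x := by
      by_contra hc
      have h2 : v + (cc k q x + (if q ∣ θ x then θ x / q else N + 1)) ≤ N := hzN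
      rw [if_neg hc] at h2
      omega
    have d1 : q * (θ x / q) = θ x := Nat.mul_div_cancel' hd
    refine ⟨f, (Fin.cons x g : Fin (i + 1) → ℕ), hf,
      fun l => Fin.cases (hq.trans (hX.trans hxX)) hg l, ?_⟩
    rw [Fin.sum_univ_succ]
    simp only [Fin.cons_zero, Fin.cons_succ]
    rw [if_pos hd, sum_range_succ _ i, ← h1]
    nlinarith

end Pool.Agent.V5helper11.WR
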